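import Pool.Agent.Results.MP_a95293_nt.FewExceptions
import Pool.Agent.V35.WM

/-!
# The n-term abc inequality near almost all rays

Let `m ≥ 2` and consider the admissible `(m + 1)`-tuples `x` (coprime integers with sum zero and
without vanishing proper sub-sum), located by the vector `pos x = (x_0, …, x_{m-1})` of `ℝ ^ m` (the
last coordinate is minus the sum of these).  Let `M > 0` and
`s = (1 - 1 / binom(m + 1, ⌊(m + 1) / 2⌋)) / M`.

For almost every `α` in `ℝ ^ m`, all `M` and all `0 ≤ θ < 1 - s / (m - 1)`, all but finitely many of the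
admissible tuples with `‖pos x - r • α‖ ≤ r ^ θ` for some `r > 0` satisfy `max |x_j| ≤ rad ^ M`.  For a
single `θ < 1` the exceptional `α` have Hausdorff dimension at most `1 + s / (1 - θ)`.
-/

set_option autoImplicit false

open Finset Filter Topology MeasureTheory

namespace Pool.Agent.Results.MP_a95293_nt.AlmostAllDirections

open Pool.Agent.V35.WM
open Pool.Agent.Results.MP_a95293_nt.FewExceptions (Admissible rad exceptions all_tuples coprime_tuples)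

/-- the first `m` coordinates of an `(m + 1)`-tuple -/
def pos (m : ℕ) (x : Fin (m + 1) → ℤ) : Fin m → ℝ := fun i => ((x i.castSucc : ℤ) : ℝ)

/-- the admissible `(m + 1)`-tuples which violate `max |x_j| ≤ rad(x_1 ⋯ x_n) ^ M` -/
def Exc (m : ℕ) (M : ℝ) : Set (Fin (m + 1) → ℤ) :=
  {x | Admissible x ∧ ∃ i, ((rad x : ℕ) : ℝ) ^ M < (|x i| : ℝ)}

/-- those with pairwise coprime coordinates -/
def ExcCop (m : ℕ) (M : ℝ) : Set (Fin (m + 1) → ℤ) :=
  {x | x ∈ Exc m M ∧ ∀ i j, i ≠ j → IsCoprime (x i) (x j)}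

lemma bound_all {m : ℕ} (hm : 2 ≤ m) {X : ℝ} (hX : 1 ≤ X) {x : Fin (m + 1) → ℤ} (hx : Admissible x)
    (h : ‖pos m x‖ ≤ X) (i : Fin (m + 1)) : (|x i| : ℝ) ≤ m * X := by
  have hX0 : 0 ≤ X := by linarith
  have hm1 : (1 : ℝ) ≤ m := by exact_mod_cast (by omega : 1 ≤ m)
  have h1 : ∀ j : Fin m, (|x j.castSucc| : ℝ) ≤ X := by
    intro j
    have h2 := (pi_norm_le_iff_of_nonneg hX0).1 h j
    rw [pos, Real.norm_eq_abs, ← Int.cast_abs] at h2
    exact_mod_cast h2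
  refine Fin.lastCases ?_ (fun j => ?_) i
  · have h2 := hx.2.1
    rw [Fin.sum_univ_castSucc] at h2
    have h3 : x (Fin.last m) = -∑ j : Fin m, x j.castSucc := by linarith
    have h4 : (|x (Fin.last m)| : ℝ) ≤ ∑ j : Fin m, (|x j.castSucc| : ℝ) := by
      rw [h3]
      push_cast
      rw [abs_neg]
      exact Finset.abs_sum_le_sum_abs _ _
    calc (|x (Fin.last m)| : ℝ) ≤ _ := h4
      _ ≤ ∑ _j : Fin m, X := Finset.sum_le_sum fun j _ => h1 j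
      _ = m * X := by rw [Finset.sum_const, Finset.card_univ, Fintype.card_fin, nsmul_eq_mul]
  · exact (h1 j).trans (by nlinarith)

lemma thin_of {m : ℕ} (hm : 2 ≤ m) {M s : ℝ} (S : Set (Fin (m + 1) → ℤ)) (hS : S ⊆ Exc m M)
    (hc : ∀ δ : ℝ, 0 < δ → ∃ C : ℝ, ∀ B : ℝ, 1 ≤ B → (exceptions (m + 1) M B).Finite ∧
      ({x | x ∈ S ∧ x ∈ exceptions (m + 1) M B}.ncard : ℝ) ≤ C * B ^ (s + δ)) : Thin S (pos m) s := by
  intro ε hε
  obtain ⟨C, hC⟩ := hc ε hε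
  refine ⟨C * (m : ℝ) ^ (s + ε), fun X hX => ?_⟩
  have hm1 : (1 : ℝ) ≤ m := by exact_mod_cast (by omega : 1 ≤ m)
  have hmX : 1 ≤ m * X := by nlinarith
  obtain ⟨h1, h2⟩ := hC (m * X) hmX
  have hsub : {t | t ∈ S ∧ ‖pos m t‖ ≤ X} ⊆ {x | x ∈ S ∧ x ∈ exceptions (m + 1) M (m * X)} := by
    rintro x ⟨hx, hn⟩
    exact ⟨hx, (hS hx).1, bound_all hm hX (hS hx).1 hn, (hS hx).2⟩
  have hfin : {x | x ∈ S ∧ x ∈ exceptions (m + 1) M (m * X)}.Finite := h1.subset fun x hx => hx.2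
  refine ⟨hfin.subset hsub, ?_⟩
  calc ({t | t ∈ S ∧ ‖pos m t‖ ≤ X}.ncard : ℝ) ≤
        ({x | x ∈ S ∧ x ∈ exceptions (m + 1) M (m * X)}.ncard : ℝ) := by
        exact_mod_cast Set.ncard_le_ncard hsub hfin
    _ ≤ C * (m * X) ^ (s + ε) := h2
    _ = _ := by rw [Real.mul_rpow (by positivity) (by linarith)]; ring

lemma choose_pos (m : ℕ) : (1 : ℝ) ≤ ((m + 1).choose ((m + 1) / 2) : ℝ) := by
  have h : 1 ≤ (m + 1).choose ((m + 1) / 2) := Nat.choose_pos (Nat.div_le_self _ _)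
  exact_mod_cast h

lemma c_nonneg (m : ℕ) : 0 ≤ 1 - 1 / ((m + 1).choose ((m + 1) / 2) : ℝ) := by
  have h := choose_pos m
  have : 1 / ((m + 1).choose ((m + 1) / 2) : ℝ) ≤ 1 := by
    rw [div_le_one (by linarith)]
    exact h
  linarith

lemma c'_nonneg (m : ℕ) : 0 ≤ 1 - 1 / ((m + 1 : ℕ) : ℝ) := by
  have h : (1 : ℝ) ≤ ((m + 1 : ℕ) : ℝ) := by exact_mod_cast Nat.succ_pos m
  have : 1 / ((m + 1 : ℕ) : ℝ) ≤ 1 := by
    rw [div_le_one (by linarith)]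
    exact h
  linarith

lemma thin_all {m : ℕ} (hm : 2 ≤ m) {M : ℝ} (hM : 0 < M) :
    Thin (Exc m M) (pos m) ((1 - 1 / ((m + 1).choose ((m + 1) / 2) : ℝ)) / M) := by
  refine thin_of hm _ (fun x hx => hx) fun δ hδ => ?_
  obtain ⟨C, hC⟩ := all_tuples (m + 1) (by omega) M δ hM hδ
  refine ⟨C, fun B hB => ⟨(hC B hB).1, le_trans ?_ (hC B hB).2⟩⟩
  have hsub : {x | x ∈ Exc m M ∧ x ∈ exceptions (m + 1) M B} ⊆ exceptions (m + 1) M B :=
    fun x hx => hx.2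
  exact_mod_cast Set.ncard_le_ncard hsub (hC B hB).1

lemma thin_cop {m : ℕ} (hm : 2 ≤ m) {M : ℝ} (hM : 0 < M) :
    Thin (ExcCop m M) (pos m) ((1 - 1 / ((m + 1 : ℕ) : ℝ)) / M) := by
  refine thin_of hm _ (fun x hx => hx.1) fun δ hδ => ?_
  obtain ⟨C, hC⟩ := coprime_tuples (m + 1) (by omega) M δ hM hδ
  obtain ⟨C2, hC2⟩ := all_tuples (m + 1) (by omega) M δ hM hδ
  refine ⟨C, fun B hB => ⟨(hC2 B hB).1, le_trans ?_ (hC B hB)⟩⟩
  have hfin : {x ∈ exceptions (m + 1) M B | ∀ i j, i ≠ j → IsCoprime (x i) (x j)}.Finite :=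
    (hC2 B hB).1.subset fun x hx => hx.1
  have hsub : {x | x ∈ ExcCop m M ∧ x ∈ exceptions (m + 1) M B} ⊆
      {x ∈ exceptions (m + 1) M B | ∀ i j, i ≠ j → IsCoprime (x i) (x j)} :=
    fun x hx => ⟨hx.2, hx.1.2⟩
  exact_mod_cast Set.ncard_le_ncard hsub hfin

/-- the elements of `S` in the neighbourhood of the ray through `α` of radius `r ^ θ` at `r • α` -/
def NearRay (m : ℕ) (S : Set (Fin (m + 1) → ℤ)) (θ : ℝ) (α : Fin m → ℝ) : Set (Fin (m + 1) → ℤ) :=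
  {x | x ∈ S ∧ ∃ r : ℝ, 0 < r ∧ ‖pos m x - r • α‖ ≤ r ^ θ}

lemma rad_pos {m : ℕ} (x : Fin (m + 1) → ℤ) : 1 ≤ rad x := by
  unfold rad
  refine Nat.one_le_iff_ne_zero.2 (Finset.prod_ne_zero_iff.2 fun p hp => ?_)
  exact (Nat.prime_of_mem_primeFactors hp).ne_zero

lemma exc_mono {m : ℕ} {M M' : ℝ} (h : M' ≤ M) : Exc m M ⊆ Exc m M' := by
  rintro x ⟨hx, i, hi⟩
  refine ⟨hx, i, lt_of_le_of_lt ?_ hi⟩
  exact Real.rpow_le_rpow_of_exponent_le (by exact_mod_cast rad_pos x) h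

lemma excCop_mono {m : ℕ} {M M' : ℝ} (h : M' ≤ M) : ExcCop m M ⊆ ExcCop m M' :=
  fun _ hx => ⟨exc_mono h hx.1, hx.2⟩

/-- the almost everywhere statement for one pair of parameters implies it for all -/
lemma ae_all {m : ℕ} (hm : 2 ≤ m) {c : ℝ} (hc : 0 ≤ c) (S : ℝ → Set (Fin (m + 1) → ℤ))
    (hmono : ∀ M M' : ℝ, M' ≤ M → S M ⊆ S M') (hthin : ∀ M : ℝ, 0 < M → Thin (S M) (pos m) (c / M)) :
    ∀ᵐ α : Fin m → ℝ, ∀ M θ : ℝ, 0 < M → 0 ≤ θ → θ < 1 - c / M / (m - 1) →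
      (NearRay m (S M) θ α).Finite := by
  have hm1 : (0 : ℝ) < (m : ℝ) - 1 := by
    have : (2 : ℝ) ≤ m := by exact_mod_cast hm
    linarith
  have hone : ∀ M θ : ℝ, 0 < M → 0 ≤ θ → θ < 1 - c / M / (m - 1) →
      ∀ᵐ α : Fin m → ℝ, (NearRay m (S M) θ α).Finite := by
    intro M θ hM hθ hθ1
    have hs : 0 ≤ c / M := div_nonneg hc hM.le
    have hs2 : 0 ≤ c / M / (m - 1) := div_nonneg hs hm1.le
    have h1θ : 0 < 1 - θ := by linarith
    have h1 := dim_badRay hs hθ (by linarith) (hthin M hM)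
    have h2 : volume (BadRay (S M) (pos m) θ) = 0 := by
      refine null_of_dimH h1 ?_ ?_
      · have : 0 ≤ c / M / (1 - θ) := div_nonneg hs h1θ.le
        linarith
      · rw [Fintype.card_fin]
        have h3 : c / M / (m - 1) < 1 - θ := by linarith
        rw [div_lt_iff₀ hm1] at h3
        have h4 : c / M / (1 - θ) < m - 1 := by
          rw [div_lt_iff₀ h1θ]
          linarith
        linarith
    have h3 : ∀ᵐ α : Fin m → ℝ, α ∉ BadRay (S M) (pos m) θ := by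
      rw [ae_iff]
      refine measure_mono_null (fun α hα => ?_) h2
      simpa only [Set.mem_ofPred_eq, not_not] using hα
    filter_upwards [h3] with α hα
    exact Set.not_infinite.1 hα
  have hrat : ∀ᵐ α : Fin m → ℝ, ∀ q1 q2 : ℚ, 0 < (q1 : ℝ) → 0 ≤ (q2 : ℝ) →
      (q2 : ℝ) < 1 - c / q1 / (m - 1) → (NearRay m (S q1) q2 α).Finite := by
    rw [ae_all_iff]
    intro q1
    rw [ae_all_iff]
    intro q2
    by_cases h : 0 < (q1 : ℝ) ∧ 0 ≤ (q2 : ℝ) ∧ (q2 : ℝ) < 1 - c / q1 / (m - 1)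
    · filter_upwards [hone q1 q2 h.1 h.2.1 h.2.2] with α hα _ _ _
      exact hα
    · exact Eventually.of_forall fun α h1 h2 h3 => absurd ⟨h1, h2, h3⟩ h
  filter_upwards [hrat] with α hα M θ hM hθ hθ1
  obtain ⟨θ', h1, h2⟩ := exists_rat_btwn hθ1
  have h1θ' : 0 < 1 - (θ' : ℝ) := by
    have : 0 ≤ c / M / ((m : ℝ) - 1) := div_nonneg (div_nonneg hc hM.le) hm1.le
    linarith
  have h3 : max 0 (c / ((m - 1) * (1 - θ'))) < M := by
    refine max_lt hM ?_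
    rw [div_lt_iff₀ (mul_pos hm1 h1θ')]
    have h4 : c / M / (m - 1) < 1 - θ' := by linarith
    rw [div_lt_iff₀ hm1, div_lt_iff₀ hM] at h4
    nlinarith
  obtain ⟨M', h4, h5⟩ := exists_rat_btwn h3
  have hM' : 0 < (M' : ℝ) := lt_of_le_of_lt (le_max_left _ _) h4
  have h6 : c / ((m - 1) * (1 - θ')) < M' := lt_of_le_of_lt (le_max_right _ _) h4
  have h7 := hα M' θ' hM' (hθ.trans h1.le) (by
    rw [div_lt_iff₀ (mul_pos hm1 h1θ')] at h6
    have h8 : c / M' / (m - 1) < 1 - θ' := by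
      rw [div_lt_iff₀ hm1, div_lt_iff₀ hM']
      nlinarith
    linarith)
  obtain ⟨C, hC⟩ := hthin M hM 1 one_pos
  have hfin := (hC (‖α‖ + 1) (by linarith [norm_nonneg α])).1
  refine (h7.union hfin).subset ?_
  rintro x ⟨hx, r, hr, hxr⟩
  rcases le_or_gt 1 r with h8 | h8
  · left
    exact ⟨hmono M M' h5.le hx, r, hr, hxr.trans (Real.rpow_le_rpow_of_exponent_le h8 h1.le)⟩
  · right
    refine ⟨hx, ?_⟩
    have h9 : ‖pos m x‖ ≤ ‖pos m x - r • α‖ + ‖r • α‖ := by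
      have := norm_add_le (pos m x - r • α) (r • α)
      rwa [sub_add_cancel] at this
    have h10 : r ^ θ ≤ 1 := Real.rpow_le_one hr.le h8.le hθ
    have h11 : ‖r • α‖ ≤ ‖α‖ := by
      rw [norm_smul, Real.norm_eq_abs, abs_of_pos hr]
      nlinarith [norm_nonneg α]
    linarith

/-- **Theorem.** Let `m ≥ 2`. For `M > 0` put `s = (1 - 1 / binom(m + 1, ⌊(m + 1) / 2⌋)) / M`.
(1) For `0 ≤ θ < 1` there is a set `E ⊆ ℝ ^ m` of Hausdorff dimension at most `1 + s / (1 - θ)` such that for each `α`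
outside `E` only finitely many admissible `(m + 1)`-tuples which violate `max |x_j| ≤ rad ^ M` lie in the neighbourhood of
the ray through `α` which has radius `r ^ θ` at the point `r • α`.
(2) For almost every `α` this holds for all `M > 0` and all `0 ≤ θ < 1 - s / (m - 1)`.
(3) For tuples with pairwise coprime coordinates both hold with `s = (1 - 1 / (m + 1)) / M`. -/
theorem result (m : ℕ) (hm : 2 ≤ m) :
    (∀ M θ : ℝ, 0 < M → 0 ≤ θ → θ < 1 → ∃ E : Set (Fin m → ℝ),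
      dimH E ≤ ENNReal.ofReal (1 + (1 - 1 / ((m + 1).choose ((m + 1) / 2) : ℝ)) / M / (1 - θ)) ∧
      ∀ α : Fin m → ℝ, α ∉ E → (NearRay m (Exc m M) θ α).Finite) ∧
    (∀ᵐ α : Fin m → ℝ, ∀ M θ : ℝ, 0 < M → 0 ≤ θ →
      θ < 1 - (1 - 1 / ((m + 1).choose ((m + 1) / 2) : ℝ)) / M / (m - 1) →
      (NearRay m (Exc m M) θ α).Finite) ∧
    (∀ M θ : ℝ, 0 < M → 0 ≤ θ → θ < 1 → ∃ E : Set (Fin m → ℝ),
      dimH E ≤ ENNReal.ofReal (1 + (1 - 1 / ((m + 1 : ℕ) : ℝ)) / M / (1 - θ)) ∧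
      ∀ α : Fin m → ℝ, α ∉ E → (NearRay m (ExcCop m M) θ α).Finite) ∧
    (∀ᵐ α : Fin m → ℝ, ∀ M θ : ℝ, 0 < M → 0 ≤ θ →
      θ < 1 - (1 - 1 / ((m + 1 : ℕ) : ℝ)) / M / (m - 1) →
      (NearRay m (ExcCop m M) θ α).Finite) := by
  refine ⟨fun M θ hM hθ hθ1 => ?_, ?_, fun M θ hM hθ hθ1 => ?_, ?_⟩
  · exact ⟨BadRay (Exc m M) (pos m) θ, dim_badRay (div_nonneg (c_nonneg m) hM.le) hθ hθ1 (thin_all hm hM),
      fun α hα => Set.not_infinite.1 hα⟩
  · exact ae_all hm (c_nonneg m) (Exc m) (fun M M' h => exc_mono h) fun M hM => thin_all hm hM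
  · exact ⟨BadRay (ExcCop m M) (pos m) θ, dim_badRay (div_nonneg (c'_nonneg m) hM.le) hθ hθ1 (thin_cop hm hM),
      fun α hα => Set.not_infinite.1 hα⟩
  · exact ae_all hm (c'_nonneg m) (ExcCop m) (fun M M' h => excCop_mono h) fun M hM => thin_cop hm hM

end Pool.Agent.Results.MP_a95293_nt.AlmostAllDirections
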