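import Pool.Agent.Results.MP_a95293_nt.ExactExponentOfExceptions
import Pool.Agent.Y854.GM.Win
import Pool.Agent.H107.MetricFam
import Pool.Agent.H107.MetricPi

/-!
# The `n`-term abc inequality with exponents near `1 / n`, near almost every point

For an admissible `n`-tuple `x`, `n = k + 3 ≥ 3`, let `Q` be the product of the radicals of the coordinates and
`height = max |x_i|`. For every `A > 1 / n` we consider the tuples with `height ≤ Q ^ A` which violate the inequality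
`height ≤ rad (x_1 ⋯ x_n) ^ M`.

**Theorem.** For every `A > 1 / n` there is `M₀ > 1 / n` such that for `1 / n ≤ M ≤ M₀`, and for every `M > 1 / n` there is
`ν > 0`, with the following properties; put `s = 1 - M` in the first case and `s = 1 - 1 / n - ν` in the second one.

1. For every map `φ` of the `n`-tuples to a metric space and `σ > 0` there is a set of Hausdorff dimension at most `s / σ`
such that for all `z` outside of it only finitely many violations satisfy `dist (φ x) z ≤ Q ^ (-σ)`.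

2. Let `v_m ≥ 1` be a sequence with exponent of convergence at most `τ` (`0` for `b ^ m`, `1 / a` for `(m + 1) ^ a`) and
`θ < 1`. For all `α > 0` outside of a set of Hausdorff dimension at most `(s + τ) / (1 - θ)` and all large `m` no violation
satisfies `|Q - α v_m| ≤ v_m ^ θ`.

3. So for `σ > (1 - 1 / n - ν) / (n - 2)` and almost all `z` in `ℝ ^ (n - 2)` all but finitely many of the admissible tuples with
`height ≤ Q ^ A` and `|x_i / x_n - z_i| ≤ Q ^ (-σ)` for `i ≤ n - 2` satisfy `height ≤ rad (x_1 ⋯ x_n) ^ M`, for `M > 1 / n`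
arbitrarily close to `1 / n`. (There are `Q ^ (1 - 1 / n)` tuples with `height ≤ Q ^ A` altogether, up to constants, by the
starting file; so for `σ < (1 - 1 / n) / (n - 2)` one expects infinitely many tuples near almost every `z`.)

The proof combines the counts of the starting file `ExactExponentOfExceptions` with coverings.
-/

set_option autoImplicit false

namespace Pool.Agent.Results.MP_a95293_nt.ExceptionsNearPoints

open MeasureTheory
open Pool.Agent.Results.MP_a95293_nt.ExactExponentOfExceptions (Admissible rad height Tuples Exceptions)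

/-- the product of the radicals of the coordinates -/
noncomputable def Q {n : ℕ} (x : Fin n → ℤ) : ℝ := ∏ i, (rad (x i) : ℝ)

/-- the admissible tuples with `height ≤ Q ^ A` which violate `height ≤ rad (x_1 ⋯ x_n) ^ M` -/
def Violation (n : ℕ) (A M : ℝ) : Set (Fin n → ℤ) :=
  {x | Admissible x ∧ (height x : ℝ) ≤ Q x ^ A ∧ (rad (∏ i, x i) : ℝ) ^ M < height x}

/-- the ratios `x_i / x_n`, `i ≤ n - 2`, for `n = k + 3` -/
noncomputable def ratios {k : ℕ} (x : Fin (k + 3) → ℤ) : Fin (k + 1) → ℝ :=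
  fun i => (x (Fin.castLE (by omega) i) : ℝ) / (x (Fin.last (k + 2)) : ℝ)

/-- the exponent of convergence of the sequence `v` is at most `τ` -/
def ExpLe (v : ℕ → ℝ) (τ : ℝ) : Prop := ∀ t : ℝ, τ < t → Summable (fun m : ℕ => (v m) ^ (-t))

/-- the two properties of a set `S` of tuples with exponent `s`: near points of metric spaces, and in windows of `Q` -/
def Avoids (n : ℕ) (S : Set (Fin n → ℤ)) (s : ℝ) : Prop :=
  (∀ (M : Type) [MetricSpace M] (φ : (Fin n → ℤ) → M) (σ : ℝ), 0 < σ →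
    ∃ E : Set M, dimH E ≤ ENNReal.ofReal (s / σ) ∧ ∀ z ∉ E, {x | x ∈ S ∧ dist (φ x) z ≤ Q x ^ (-σ)}.Finite) ∧
  (∀ (v : ℕ → ℝ) (τ θ : ℝ), (∀ m, 1 ≤ v m) → 0 ≤ τ → ExpLe v τ → θ < 1 →
    ∃ E : Set ℝ, dimH E ≤ ENNReal.ofReal ((s + τ) / (1 - θ)) ∧ ∀ α : ℝ, 0 < α → α ∉ E →
      ∃ m₀ : ℕ, ∀ m : ℕ, m₀ ≤ m → ∀ x ∈ S, (v m) ^ θ < |Q x - α * v m|)

theorem rad_pos (a : ℤ) : (1 : ℝ) ≤ rad a := by
  have h : 0 < rad a := Finset.prod_pos fun p hp => (Nat.prime_of_mem_primeFactors hp).pos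
  exact_mod_cast h

theorem Q_pos {n : ℕ} (x : Fin n → ℤ) : 1 ≤ Q x :=
  Finset.prod_induction (fun i => (rad (x i) : ℝ)) (fun y => 1 ≤ y)
    (fun _ _ ha hb => one_le_mul_of_one_le_of_one_le ha hb) le_rfl fun i _ => rad_pos (x i)

theorem avoids_of_count {n : ℕ} {S : Set (Fin n → ℤ)} {s : ℝ} (hs : 0 ≤ s)
    (h : ∀ ε : ℝ, 0 < ε → ∃ C : ℝ, ∀ X : ℝ, 1 ≤ X → {x | x ∈ S ∧ Q x ≤ X}.Finite ∧
      ({x | x ∈ S ∧ Q x ≤ X}.ncard : ℝ) ≤ C * X ^ (s + ε)) : Avoids n S s := by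
  refine ⟨?_, ?_⟩
  · intro M _ φ σ hσ
    obtain ⟨E, h1, h2⟩ := Pool.Agent.H107.ME.dim_family φ (fun x => Q x) Q_pos hs hσ (J := Unit)
      (fun _ => S) (fun _ ε hε => h ε hε)
    exact ⟨E, h1, fun z hz => h2 z hz ()⟩
  · intro v τ θ hv hτ hvτ hθ
    exact Pool.Agent.Y854.GM.windows S (fun x => Q x) hv hτ hvτ hs hθ h

theorem null_of_dim {k : ℕ} {E : Set (Fin (k + 1) → ℝ)} {s σ : ℝ} (hs : 0 ≤ s)
    (h1 : dimH E ≤ ENNReal.ofReal (s / σ)) (hσ : s / (k + 1) < σ) : volume E = 0 := by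
  have hk : (0 : ℝ) < (k : ℝ) + 1 := by positivity
  have hσ0 : 0 < σ := lt_of_le_of_lt (div_nonneg hs hk.le) hσ
  apply Pool.Agent.H107.ME.null_of_dimH_lt
  refine h1.trans_lt ?_
  have h3 : s / σ < (k : ℝ) + 1 := by
    rw [div_lt_iff₀ hk] at hσ
    rw [div_lt_iff₀ hσ0]
    linarith
  have h4 : ((Fintype.card (Fin (k + 1)) : ℕ) : ENNReal) = ENNReal.ofReal ((k : ℝ) + 1) := by
    rw [Fintype.card_fin, ← ENNReal.ofReal_natCast]
    push_cast
    rfl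
  rw [h4]
  exact (ENNReal.ofReal_lt_ofReal_iff hk).2 h3

theorem sub_exc {n : ℕ} {A M X : ℝ} (hA : 0 < A) : {x | x ∈ Violation n A M ∧ Q x ≤ X} ⊆ Exceptions n A M X := by
  rintro x ⟨⟨g1, g2, g3⟩, g4⟩
  have h1 : (height x : ℝ) ≤ X ^ A := g2.trans (Real.rpow_le_rpow (by linarith [Q_pos x]) g4 hA.le)
  exact ⟨⟨g1, h1, g4⟩, g3⟩

/-- **Theorem.** -/
theorem result (k : ℕ) (A : ℝ) (hA : (1 : ℝ) / ((k + 3 : ℕ) : ℝ) < A) :
    (∃ M₀ : ℝ, (1 : ℝ) / ((k + 3 : ℕ) : ℝ) < M₀ ∧ ∀ M : ℝ, (1 : ℝ) / ((k + 3 : ℕ) : ℝ) ≤ M → M ≤ M₀ →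
      Avoids (k + 3) (Violation (k + 3) A M) (1 - M)) ∧
    (∀ M : ℝ, (1 : ℝ) / ((k + 3 : ℕ) : ℝ) < M → ∃ ν : ℝ, 0 < ν ∧
      Avoids (k + 3) (Violation (k + 3) A M) (1 - 1 / ((k + 3 : ℕ) : ℝ) - ν) ∧
      ∀ σ : ℝ, (1 - 1 / ((k + 3 : ℕ) : ℝ) - ν) / (k + 1) < σ → ∀ᵐ z : Fin (k + 1) → ℝ,
        {x | Admissible x ∧ (height x : ℝ) ≤ Q x ^ A ∧ (∀ i, |ratios x i - z i| ≤ Q x ^ (-σ)) ∧
          (rad (∏ i, x i) : ℝ) ^ M < height x}.Finite) ∧
    (∀ a : ℝ, 0 < a → ExpLe (fun m : ℕ => ((m : ℝ) + 1) ^ a) (1 / a)) ∧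
    (∀ b : ℝ, 1 < b → ExpLe (fun m : ℕ => b ^ m) 0) := by
  obtain ⟨hfin, -, h2, M₀, hM₀, h3⟩ :=
    Pool.Agent.Results.MP_a95293_nt.ExactExponentOfExceptions.result (k + 3) (by omega) A hA
  have hn0 : (0 : ℝ) < ((k + 3 : ℕ) : ℝ) := by positivity
  have hn3 : (3 : ℝ) ≤ ((k + 3 : ℕ) : ℝ) := by
    push_cast
    have : (0 : ℝ) ≤ k := Nat.cast_nonneg _
    linarith
  have hninv : (0 : ℝ) < 1 / ((k + 3 : ℕ) : ℝ) := by positivity
  have hninv1 : 1 / ((k + 3 : ℕ) : ℝ) < 1 := by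
    rw [div_lt_one hn0]
    linarith
  have hA0 : 0 < A := hninv.trans hA
  have hexcfin : ∀ M X : ℝ, (Exceptions (k + 3) A M X).Finite := fun M X => (hfin X).subset fun x hx => hx.1
  have hcard : ∀ M X : ℝ, ({x | x ∈ Violation (k + 3) A M ∧ Q x ≤ X}.ncard : ℝ) ≤
      ((Exceptions (k + 3) A M X).ncard : ℝ) := fun M X => by
    exact_mod_cast Set.ncard_le_ncard (sub_exc hA0) (hexcfin M X)
  refine ⟨⟨min M₀ 1, lt_min hM₀ hninv1, fun M hM1 hM2 => ?_⟩, fun M hM => ?_,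
    fun κ hκ => Pool.Agent.Y854.GM.expLe_pow κ hκ, fun b hb => Pool.Agent.Y854.GM.expLe_geom b hb⟩
  · have hM1' : M ≤ 1 := hM2.trans (min_le_right _ _)
    refine avoids_of_count (by linarith) fun ε hε => ?_
    obtain ⟨X₀, hX₀⟩ := h3 ε hε
    set X₁ : ℝ := max X₀ 1 with hX₁
    have hX₁1 : 1 ≤ X₁ := le_max_right _ _
    refine ⟨1 + ((Exceptions (k + 3) A M X₁).ncard : ℝ), fun X hX => ?_⟩
    refine ⟨(hexcfin M X).subset (sub_exc hA0), ?_⟩
    have hXp : 1 ≤ X ^ (1 - M + ε) := Real.one_le_rpow hX (by linarith)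
    have hnn : (0 : ℝ) ≤ ((Exceptions (k + 3) A M X₁).ncard : ℝ) := Nat.cast_nonneg _
    by_cases hle : X₁ ≤ X
    · have h5 := (hX₀ X ((le_max_left _ _).trans hle) M hM1 (hM2.trans (min_le_left _ _))).2
      refine (hcard M X).trans (h5.trans ?_)
      nlinarith
    · have hsub : {x | x ∈ Violation (k + 3) A M ∧ Q x ≤ X} ⊆ Exceptions (k + 3) A M X₁ :=
        fun x hx => sub_exc hA0 ⟨hx.1, hx.2.trans (not_le.1 hle).le⟩
      have h5 : ({x | x ∈ Violation (k + 3) A M ∧ Q x ≤ X}.ncard : ℝ) ≤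
          ((Exceptions (k + 3) A M X₁).ncard : ℝ) := by
        exact_mod_cast Set.ncard_le_ncard hsub (hexcfin M X₁)
      refine h5.trans ?_
      nlinarith
  · obtain ⟨ν, hν, C, hC⟩ := h2 M hM
    have hexp : (((k + 3 : ℕ) : ℝ) - 1) / ((k + 3 : ℕ) : ℝ) = 1 - 1 / ((k + 3 : ℕ) : ℝ) := by
      field_simp
    set ν' : ℝ := min ν (1 - 1 / ((k + 3 : ℕ) : ℝ)) with hν'
    have hν'0 : 0 < ν' := lt_min hν (by linarith)
    have hs : 0 ≤ 1 - 1 / ((k + 3 : ℕ) : ℝ) - ν' := sub_nonneg.2 (min_le_right _ _)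
    have hav : Avoids (k + 3) (Violation (k + 3) A M) (1 - 1 / ((k + 3 : ℕ) : ℝ) - ν') := by
      refine avoids_of_count hs fun ε hε => ⟨|C|, fun X hX => ⟨(hexcfin M X).subset (sub_exc hA0), ?_⟩⟩
      refine (hcard M X).trans ((hC X hX).trans ?_)
      rw [hexp]
      have h6 : C * X ^ (1 - 1 / ((k + 3 : ℕ) : ℝ) - ν) ≤ |C| * X ^ (1 - 1 / ((k + 3 : ℕ) : ℝ) - ν) :=
        mul_le_mul_of_nonneg_right (le_abs_self C) (Real.rpow_nonneg (by linarith) _)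
      refine h6.trans (mul_le_mul_of_nonneg_left ?_ (abs_nonneg C))
      exact Real.rpow_le_rpow_of_exponent_le hX (by
        have := min_le_left ν (1 - 1 / ((k + 3 : ℕ) : ℝ))
        linarith)
    refine ⟨ν', hν'0, hav, fun σ hσ => ?_⟩
    have hk : (0 : ℝ) < (k : ℝ) + 1 := by positivity
    have hσ0 : 0 < σ := lt_of_le_of_lt (div_nonneg hs hk.le) hσ
    obtain ⟨E, g1, g2⟩ := hav.1 (Fin (k + 1) → ℝ) ratios σ hσ0
    have hnull : volume E = 0 := null_of_dim hs g1 hσ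
    filter_upwards [compl_mem_ae_iff.2 hnull] with z hz
    refine (g2 z hz).subset ?_
    rintro x ⟨e1, e2, e3, e4⟩
    refine ⟨⟨e1, e2, e4⟩, ?_⟩
    rw [dist_pi_le_iff (Real.rpow_nonneg (by linarith [Q_pos x]) _)]
    intro i
    rw [Real.dist_eq]
    exact e3 i

end Pool.Agent.Results.MP_a95293_nt.ExceptionsNearPoints
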