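import Pool.Agent.Results.MP_a95293_nt.FewExceptions
import Pool.Agent.V11001.KM.Near
import Pool.Agent.Y854.GM.Win

/-!
# The n-term abc inequality for tuples whose size is near the powers of almost every real number

Let `n ≥ 3`, `M > 0` and `s = (1 - 1 / binom(n, ⌊n / 2⌋)) / M`.  For almost every real `x > 1`, all `M`
and all `θ < 1 - s`, ALL admissible `n`-tuples (coprime integers with sum zero and without vanishing
proper sub-sum) with a sufficiently large maximum `H = max |x_j|` in one of the windows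
`|H - β x ^ (ν k)| ≤ x ^ (θ ν k)` satisfy `H ≤ rad ^ M`; here `ν k / log k → ∞`, for example `ν k = k`.
The same holds in the windows `|H - α v_k| ≤ v_k ^ θ`, `k` large, around the multiples of a thin
sequence `v`, for almost every `α`.
-/

set_option autoImplicit false

open Finset Filter Topology MeasureTheory

namespace Pool.Agent.Results.MP_a95293_nt.HeightWindows

open Pool.Agent.V11001.KM
open Pool.Agent.Results.MP_a95293_nt.FewExceptions (Admissible rad exceptions all_tuples coprime_tuples)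

/-- the maximum of the `|x j|` (the norm of `Fin n → ℝ` is the maximum norm) -/
noncomputable def size {n : ℕ} (x : Fin n → ℤ) : ℝ := ‖fun i => ((x i : ℤ) : ℝ)‖

/-- the admissible `n`-tuples which violate `max |x_j| ≤ rad(x_1 ⋯ x_n) ^ M` -/
def Exc (n : ℕ) (M : ℝ) : Set (Fin n → ℤ) := {x | Admissible x ∧ ((rad x : ℕ) : ℝ) ^ M < size x}

/-- those with pairwise coprime coordinates -/
def ExcCop (n : ℕ) (M : ℝ) : Set (Fin n → ℤ) := {x | x ∈ Exc n M ∧ ∀ i j, i ≠ j → IsCoprime (x i) (x j)}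

lemma exc_sub {n : ℕ} {M B : ℝ} (hB : 1 ≤ B) :
    {x | x ∈ Exc n M ∧ size x ≤ B} ⊆ exceptions n M B := by
  rintro x ⟨⟨h1, h2⟩, h3⟩
  have hB0 : 0 ≤ B := by linarith
  have e : ∀ i, ‖((x i : ℤ) : ℝ)‖ = (|x i| : ℝ) := by
    intro i
    rw [Real.norm_eq_abs]
  refine ⟨h1, fun i => ?_, ?_⟩
  · have := (pi_norm_le_iff_of_nonneg hB0).1 h3 i
    rw [e] at this
    exact this
  · by_contra hcon
    push Not at hcon
    have h4 : 0 ≤ ((rad x : ℕ) : ℝ) ^ M := by positivity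
    have h5 : size x ≤ ((rad x : ℕ) : ℝ) ^ M := by
      refine (pi_norm_le_iff_of_nonneg h4).2 fun i => ?_
      rw [e]
      exact hcon i
    linarith

lemma choose_pos {n : ℕ} : (1 : ℝ) ≤ (n.choose (n / 2) : ℝ) := by
  have h : 1 ≤ n.choose (n / 2) := Nat.choose_pos (Nat.div_le_self _ _)
  exact_mod_cast h

lemma c_nonneg (n : ℕ) : 0 ≤ 1 - 1 / (n.choose (n / 2) : ℝ) := by
  have h := choose_pos (n := n)
  have : 1 / (n.choose (n / 2) : ℝ) ≤ 1 := by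
    rw [div_le_one (by linarith)]
    exact h
  linarith

lemma c'_nonneg {n : ℕ} (hn : 3 ≤ n) : 0 ≤ 1 - 1 / (n : ℝ) := by
  have h : (1 : ℝ) ≤ n := by exact_mod_cast (by omega : 1 ≤ n)
  have : 1 / (n : ℝ) ≤ 1 := by
    rw [div_le_one (by linarith)]
    exact h
  linarith

lemma rad_pos {n : ℕ} (x : Fin n → ℤ) : 1 ≤ rad x := by
  unfold rad
  refine Nat.one_le_iff_ne_zero.2 (Finset.prod_ne_zero_iff.2 fun p hp => ?_)
  exact (Nat.prime_of_mem_primeFactors hp).ne_zero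

/-- the counts of the exceptional tuples of bounded size -/
def Count {n : ℕ} (S : ℝ → Set (Fin n → ℤ)) (c : ℝ) : Prop :=
  ∀ M : ℝ, 0 < M → ∀ ε : ℝ, 0 < ε → ∃ C : ℝ, ∀ X : ℝ, 1 ≤ X →
    {t | t ∈ S M ∧ size t ≤ X}.Finite ∧ ({t | t ∈ S M ∧ size t ≤ X}.ncard : ℝ) ≤ C * X ^ (c / M + ε)

lemma count_all {n : ℕ} (hn : 3 ≤ n) : Count (Exc n) (1 - 1 / (n.choose (n / 2) : ℝ)) := by
  intro M hM δ hδ
  obtain ⟨C, hC⟩ := all_tuples n hn M δ hM hδ
  refine ⟨C, fun B hB => ⟨(hC B hB).1.subset (exc_sub hB), le_trans ?_ (hC B hB).2⟩⟩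
  exact_mod_cast Set.ncard_le_ncard (exc_sub hB) (hC B hB).1

lemma count_cop {n : ℕ} (hn : 3 ≤ n) : Count (ExcCop n) (1 - 1 / (n : ℝ)) := by
  intro M hM δ hδ
  obtain ⟨C, hC⟩ := coprime_tuples n hn M δ hM hδ
  obtain ⟨C2, hC2⟩ := all_tuples n hn M δ hM hδ
  refine ⟨C, fun B hB => ?_⟩
  have hfin : {x ∈ exceptions n M B | ∀ i j, i ≠ j → IsCoprime (x i) (x j)}.Finite :=
    (hC2 B hB).1.subset fun x hx => hx.1
  have hsub : {t | t ∈ ExcCop n M ∧ size t ≤ B} ⊆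
      {x ∈ exceptions n M B | ∀ i j, i ≠ j → IsCoprime (x i) (x j)} :=
    fun x hx => ⟨exc_sub hB ⟨hx.1.1, hx.2⟩, hx.1.2⟩
  refine ⟨hfin.subset hsub, le_trans ?_ (hC B hB)⟩
  exact_mod_cast Set.ncard_le_ncard hsub hfin

/-- outside of a set of small dimension, one pair of parameters -/
lemma dim_one {n : ℕ} {c : ℝ} (hc : 0 ≤ c) {S : ℝ → Set (Fin n → ℤ)} (hS : Count S c)
    {ν : ℕ → ℝ} (hν : Fast ν) {B : Set ℝ} (hB : B.Countable) {M θ : ℝ} (hM : 0 < M) (hθ : θ < 1) :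
    ∃ E : Set ℝ, dimH E ≤ ENNReal.ofReal (c / M / (1 - θ)) ∧ ∀ x : ℝ, 1 < x → x ∉ E → ∀ β ∈ B, 0 < β →
      ∃ H₀ : ℝ, ∀ t ∈ S M, Near ν θ β x (size t) → size t < H₀ := by
  obtain ⟨E, h1, h2⟩ := family_threshold size hν (s := c / M) (div_nonneg hc hM.le) hθ B hB (J := Unit)
    (fun _ => S M) (fun _ ε hε => hS M hM ε hε)
  exact ⟨E, h1, fun x hx hxE β hβ hβ0 => h2 x hx hxE β hβ hβ0 ()⟩

/-- the almost everywhere statement, for all parameters -/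
lemma ae_all {n : ℕ} {c : ℝ} (hc : 0 ≤ c) {S : ℝ → Set (Fin n → ℤ)}
    (hmono : ∀ M M' : ℝ, M' ≤ M → S M ⊆ S M') (hS : Count S c)
    {ν : ℕ → ℝ} (hν : Fast ν) {B : Set ℝ} (hB : B.Countable) :
    ∀ᵐ x : ℝ, 1 < x → ∀ M θ : ℝ, 0 < M → θ < 1 - c / M → ∀ β ∈ B, 0 < β →
      ∃ H₀ : ℝ, ∀ t ∈ S M, Near ν θ β x (size t) → size t < H₀ := by
  have hrat : ∀ q : ℚ, ∀ᵐ x : ℝ, 0 < (q : ℝ) → 1 < x → ∀ θ : ℝ, θ < 1 - c / q → ∀ β ∈ B, 0 < β →
      ∃ H₀ : ℝ, ∀ t ∈ S q, Near ν θ β x (size t) → size t < H₀ := by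
    intro q
    by_cases hq : 0 < (q : ℝ)
    · filter_upwards [ae_family_threshold size hν (s := c / q) (div_nonneg hc hq.le) B hB (J := Unit)
        (fun _ => S q) (fun _ ε hε => hS q hq ε hε)] with x hx _ hx1 θ hθ β hβ hβ0
      exact hx hx1 θ hθ β hβ hβ0 ()
    · exact Eventually.of_forall fun x h => absurd h hq
  filter_upwards [ae_all_iff.2 hrat] with x hx hx1 M θ hM hθ β hβ hβ0
  -- a rational number slightly below `M`
  obtain ⟨q, h1, h2, h3⟩ : ∃ q : ℚ, 0 < (q : ℝ) ∧ (q : ℝ) ≤ M ∧ θ < 1 - c / q := by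
    by_cases h1θ : 0 < 1 - θ
    · have h4 : max 0 (c / (1 - θ)) < M := by
        refine max_lt hM ?_
        rw [div_lt_iff₀ h1θ]
        have h5 : c / M < 1 - θ := by linarith
        rw [div_lt_iff₀ hM] at h5
        linarith
      obtain ⟨q, h5, h6⟩ := exists_rat_btwn h4
      have hq0 : 0 < (q : ℝ) := lt_of_le_of_lt (le_max_left _ _) h5
      refine ⟨q, hq0, h6.le, ?_⟩
      have h7 : c / (1 - θ) < q := lt_of_le_of_lt (le_max_right _ _) h5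
      rw [div_lt_iff₀ h1θ] at h7
      have h8 : c / q < 1 - θ := by
        rw [div_lt_iff₀ hq0]
        linarith
      linarith
    · exfalso
      have : 0 ≤ c / M := div_nonneg hc hM.le
      linarith
  obtain ⟨H₀, hH⟩ := hx q h1 hx1 θ h3 β hβ hβ0
  exact ⟨H₀, fun t ht hn => hH t (hmono M q h2 ht) hn⟩

lemma exc_mono {n : ℕ} {M M' : ℝ} (h : M' ≤ M) : Exc n M ⊆ Exc n M' := by
  rintro x ⟨hx, hi⟩
  refine ⟨hx, lt_of_le_of_lt ?_ hi⟩
  exact Real.rpow_le_rpow_of_exponent_le (by exact_mod_cast rad_pos x) h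

lemma excCop_mono {n : ℕ} {M M' : ℝ} (h : M' ≤ M) : ExcCop n M ⊆ ExcCop n M' :=
  fun _ hx => ⟨exc_mono h hx.1, hx.2⟩

/-- the conclusion in terms of all admissible tuples -/
lemma conv {n : ℕ} {M : ℝ} {P : ℝ → Prop} (h : ∃ H₀ : ℝ, ∀ t ∈ Exc n M, P (size t) → size t < H₀) :
    ∃ H₀ : ℝ, ∀ t : Fin n → ℤ, Admissible t → H₀ ≤ size t → P (size t) → size t ≤ ((rad t : ℕ) : ℝ) ^ M := by
  obtain ⟨H₀, hH⟩ := h
  refine ⟨H₀, fun t ht h1 h2 => ?_⟩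
  by_contra hcon
  rw [not_le] at hcon
  exact absurd (hH t ⟨ht, hcon⟩ h2) (not_lt.2 h1)

lemma convCop {n : ℕ} {M : ℝ} {P : ℝ → Prop} (h : ∃ H₀ : ℝ, ∀ t ∈ ExcCop n M, P (size t) → size t < H₀) :
    ∃ H₀ : ℝ, ∀ t : Fin n → ℤ, Admissible t → (∀ i j, i ≠ j → IsCoprime (t i) (t j)) → H₀ ≤ size t →
      P (size t) → size t ≤ ((rad t : ℕ) : ℝ) ^ M := by
  obtain ⟨H₀, hH⟩ := h
  refine ⟨H₀, fun t ht hc h1 h2 => ?_⟩
  by_contra hcon
  rw [not_le] at hcon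
  exact absurd (hH t ⟨⟨ht, hcon⟩, hc⟩ h2) (not_lt.2 h1)

/-- **Theorem.** Let `n ≥ 3`, `ν k / log k → ∞` and let `B` be a countable set of real numbers. For `M > 0` put
`s = (1 - 1 / binom(n, ⌊n / 2⌋)) / M`.
(1) For `θ < 1` there is a set `E` of Hausdorff dimension at most `s / (1 - θ)` such that for each `x > 1` outside `E` and
each positive `β` in `B` there is `H₀` such that ALL admissible `n`-tuples `t` whose size `H = max |t_j| ≥ H₀` satisfies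
`|H - β x ^ (ν k)| ≤ x ^ (θ ν k)` for some `k` satisfy `H ≤ rad ^ M`.
(2) For almost every real `x > 1` this holds for all `M > 0` and all `θ < 1 - s`.
(3) For tuples with pairwise coprime coordinates (2) holds with `s = (1 - 1 / n) / M`.
(4) If `v ≥ 1` is a sequence of exponent of convergence at most `τ ≥ 0` and `θ < 1`, there is a set `E` of Hausdorff
dimension at most `(s + τ) / (1 - θ)` such that for each `α > 0` outside `E` and all large `k` ALL admissible `n`-tuples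
with `|H - α v_k| ≤ v_k ^ θ` satisfy `H ≤ rad ^ M`. -/
theorem result (n : ℕ) (hn : 3 ≤ n) :
    (∀ ν : ℕ → ℝ, Fast ν → ∀ B : Set ℝ, B.Countable →
      (∀ M θ : ℝ, 0 < M → θ < 1 → ∃ E : Set ℝ,
        dimH E ≤ ENNReal.ofReal ((1 - 1 / (n.choose (n / 2) : ℝ)) / M / (1 - θ)) ∧
        ∀ x : ℝ, 1 < x → x ∉ E → ∀ β ∈ B, 0 < β → ∃ H₀ : ℝ, ∀ t : Fin n → ℤ, Admissible t →
          H₀ ≤ size t → Near ν θ β x (size t) → size t ≤ ((rad t : ℕ) : ℝ) ^ M) ∧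
      (∀ᵐ x : ℝ, 1 < x → ∀ M θ : ℝ, 0 < M → θ < 1 - (1 - 1 / (n.choose (n / 2) : ℝ)) / M →
        ∀ β ∈ B, 0 < β → ∃ H₀ : ℝ, ∀ t : Fin n → ℤ, Admissible t →
          H₀ ≤ size t → Near ν θ β x (size t) → size t ≤ ((rad t : ℕ) : ℝ) ^ M) ∧
      (∀ᵐ x : ℝ, 1 < x → ∀ M θ : ℝ, 0 < M → θ < 1 - (1 - 1 / (n : ℝ)) / M →
        ∀ β ∈ B, 0 < β → ∃ H₀ : ℝ, ∀ t : Fin n → ℤ, Admissible t →
          (∀ i j, i ≠ j → IsCoprime (t i) (t j)) →
          H₀ ≤ size t → Near ν θ β x (size t) → size t ≤ ((rad t : ℕ) : ℝ) ^ M)) ∧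
    (∀ (v : ℕ → ℝ) (τ M θ : ℝ), (∀ k, 1 ≤ v k) → 0 ≤ τ → (∀ u : ℝ, τ < u → Summable (fun k : ℕ => (v k) ^ (-u))) →
      0 < M → θ < 1 → ∃ E : Set ℝ,
        dimH E ≤ ENNReal.ofReal (((1 - 1 / (n.choose (n / 2) : ℝ)) / M + τ) / (1 - θ)) ∧
        ∀ α : ℝ, 0 < α → α ∉ E → ∃ k₀ : ℕ, ∀ k : ℕ, k₀ ≤ k → ∀ t : Fin n → ℤ, Admissible t →
          |size t - α * v k| ≤ (v k) ^ θ → size t ≤ ((rad t : ℕ) : ℝ) ^ M) := by
  refine ⟨fun ν hν B hB => ⟨fun M θ hM hθ => ?_, ?_, ?_⟩, fun v τ M θ hv hτ hE hM hθ => ?_⟩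
  · obtain ⟨E, h1, h2⟩ := dim_one (c_nonneg n) (count_all hn) hν hB hM hθ
    exact ⟨E, h1, fun x hx hxE β hβ hβ0 => conv (h2 x hx hxE β hβ hβ0)⟩
  · filter_upwards [ae_all (c_nonneg n) (fun M M' h => exc_mono h) (count_all hn) hν hB] with x hx hx1 M θ hM hθ
      β hβ hβ0
    exact conv (hx hx1 M θ hM hθ β hβ hβ0)
  · filter_upwards [ae_all (c'_nonneg hn) (fun M M' h => excCop_mono h) (count_cop hn) hν hB] with x hx hx1 M θ
      hM hθ β hβ hβ0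
    exact convCop (hx hx1 M θ hM hθ β hβ hβ0)
  · obtain ⟨E, h1, h2⟩ := Pool.Agent.Y854.GM.windows (Exc n M) size hv hτ hE
      (div_nonneg (c_nonneg n) hM.le) hθ (fun ε hε => count_all hn M hM ε hε)
    refine ⟨E, h1, fun α hα hαE => ?_⟩
    obtain ⟨k₀, hk⟩ := h2 α hα hαE
    refine ⟨k₀, fun k hk0 t ht h3 => ?_⟩
    by_contra hcon
    rw [not_le] at hcon
    exact absurd (hk k hk0 t ⟨ht, hcon⟩) (not_lt.2 h3)

end Pool.Agent.Results.MP_a95293_nt.HeightWindows
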