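import Pool.Agent.Results.MP_a95293_nt.AlmostAllDirections
import Pool.Agent.H36PA.Engine

/-!
# The n-term abc conjecture: ALL admissible tuples in the residue classes of almost every point

An admissible `n`-tuple `x`, `n = m + 1`, is determined by its first `m` coordinates, which may be any integers. Let
`p_1, …, p_r` be primes, `M > 0`, `σ > 0` and `s = (1 - 1 / binom(n, ⌊n / 2⌋)) / M`. For all `α = (α_j)`,
`α_j ∈ ℤ_{p_j} ^ m`, outside of a set of Hausdorff dimension at most `s / σ` and all large `T`, ALL admissible `n`-tuples `x`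
with `|x_i| ≤ T` and `|x_i - α_{j,i}|_{p_j} ≤ T ^ (-σ)` for all `i ≤ m` and all `j` satisfy
`max |x_j| ≤ rad(x_1 ⋯ x_n) ^ M`. For tuples with pairwise coprime coordinates the same holds with `s = (1 - 1 / n) / M`.

The space of the `α` has dimension `m r`, and there are about `T ^ (m (1 - r σ))` integral points in the boxes considered: the
theorem says something for `s / m < r σ < 1`, for example for `M = 1` and all `n ≥ 3`.
-/

set_option autoImplicit false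

namespace Pool.Agent.Results.MP_a95293_nt.TuplesInResidueClasses

open Pool.Agent.Results.MP_a95293_nt.FewExceptions (Admissible rad)
open Pool.Agent.Results.MP_a95293_nt.AlmostAllDirections (Exc ExcCop pos thin_all thin_cop c_nonneg c'_nonneg)

/-- the first `m` coordinates -/
def first {m : ℕ} (x : Fin (m + 1) → ℤ) : Fin m → ℤ := fun i => x i.castSucc

theorem core {m r : ℕ} (p : Fin r → ℕ) [∀ j, Fact (p j).Prime] (S : Set (Fin (m + 1) → ℤ)) {s : ℝ} (hs : 0 ≤ s)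
    (hthin : Pool.Agent.V35.WM.Thin S (pos m) s) {σ : ℝ} (hσ : 0 < σ) :
    ∃ E : Set (∀ j : Fin r, Fin m → ℤ_[p j]), dimH E ≤ ENNReal.ofReal (s / σ) ∧ ∀ α ∉ E, ∃ T₀ : ℝ, ∀ T ≥ T₀,
      ∀ x : Fin (m + 1) → ℤ, (∀ i : Fin m, |(x i.castSucc : ℝ)| ≤ T) →
        (∀ (j : Fin r) (i : Fin m), ‖(x i.castSucc : ℤ_[p j]) - α j i‖ ≤ T ^ (-σ)) → x ∉ S := by
  obtain ⟨E, hE1, hE2⟩ := Pool.Agent.H36PA.padic_ints p (fun _ => first '' S) hs (fun _ ε hε => by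
    obtain ⟨C, hC⟩ := hthin ε hε
    refine ⟨C, fun X hX => ?_⟩
    obtain ⟨h1, h2⟩ := hC X hX
    have hX0 : 0 ≤ X := by linarith
    have hsub : {t : Fin m → ℤ | (∀ i, |(t i : ℝ)| ≤ X) ∧ t ∈ first '' S} ⊆ first '' {x | x ∈ S ∧ ‖pos m x‖ ≤ X} := by
      rintro _ ⟨ht, x, hx, rfl⟩
      refine ⟨x, ⟨hx, ?_⟩, rfl⟩
      rw [pi_norm_le_iff_of_nonneg hX0]
      intro i
      rw [Real.norm_eq_abs]
      exact ht i
    have hfin := h1.image (first (m := m))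
    refine ⟨hfin.subset hsub, le_trans ?_ h2⟩
    exact_mod_cast (Set.ncard_le_ncard hsub hfin).trans (Set.ncard_image_le h1)) hσ
  refine ⟨E, hE1, fun α hα => ?_⟩
  obtain ⟨T₀, hT⟩ := hE2 α hα 0
  exact ⟨T₀, fun T hT1 x hx hxα hxS => hT T hT1 (first x) hx hxα ⟨x, hxS, rfl⟩⟩

/-- **All admissible tuples in residue classes.** -/
theorem result (m : ℕ) (hm : 2 ≤ m) (r : ℕ) (p : Fin r → ℕ) [∀ j, Fact (p j).Prime] (M σ : ℝ) (hM : 0 < M)
    (hσ : 0 < σ) :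
    (∃ E : Set (∀ j : Fin r, Fin m → ℤ_[p j]),
      dimH E ≤ ENNReal.ofReal ((1 - 1 / ((m + 1).choose ((m + 1) / 2) : ℝ)) / M / σ) ∧
      ∀ α ∉ E, ∃ T₀ : ℝ, ∀ T ≥ T₀, ∀ x : Fin (m + 1) → ℤ, Admissible x → (∀ i : Fin m, |(x i.castSucc : ℝ)| ≤ T) →
        (∀ (j : Fin r) (i : Fin m), ‖(x i.castSucc : ℤ_[p j]) - α j i‖ ≤ T ^ (-σ)) →
          ∀ i, (|x i| : ℝ) ≤ ((rad x : ℕ) : ℝ) ^ M) ∧
    (∃ E : Set (∀ j : Fin r, Fin m → ℤ_[p j]),
      dimH E ≤ ENNReal.ofReal ((1 - 1 / ((m + 1 : ℕ) : ℝ)) / M / σ) ∧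
      ∀ α ∉ E, ∃ T₀ : ℝ, ∀ T ≥ T₀, ∀ x : Fin (m + 1) → ℤ, Admissible x → (∀ i j, i ≠ j → IsCoprime (x i) (x j)) →
        (∀ i : Fin m, |(x i.castSucc : ℝ)| ≤ T) →
        (∀ (j : Fin r) (i : Fin m), ‖(x i.castSucc : ℤ_[p j]) - α j i‖ ≤ T ^ (-σ)) →
          ∀ i, (|x i| : ℝ) ≤ ((rad x : ℕ) : ℝ) ^ M) := by
  refine ⟨?_, ?_⟩
  · obtain ⟨E, h1, h2⟩ := core p (Exc m M) (div_nonneg (c_nonneg m) hM.le) (thin_all hm hM) hσ
    refine ⟨E, h1, fun α hα => ?_⟩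
    obtain ⟨T₀, hT⟩ := h2 α hα
    refine ⟨T₀, fun T hT1 x hx hxT hxα i => ?_⟩
    by_contra hc
    push Not at hc
    exact hT T hT1 x hxT hxα ⟨hx, i, hc⟩
  · obtain ⟨E, h1, h2⟩ := core p (ExcCop m M) (div_nonneg (c'_nonneg m) hM.le) (thin_cop hm hM) hσ
    refine ⟨E, h1, fun α hα => ?_⟩
    obtain ⟨T₀, hT⟩ := h2 α hα
    refine ⟨T₀, fun T hT1 x hx hcop hxT hxα i => ?_⟩
    by_contra hc
    push Not at hc
    exact hT T hT1 x hxT hxα ⟨⟨hx, i, hc⟩, hcop⟩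

end Pool.Agent.Results.MP_a95293_nt.TuplesInResidueClasses
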